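import Pool.Agent.helper19.AR.Defs2

/-!
# Aharoni's rainbow cycle conjecture for large `n` (MP_962e14_co): module EXa
-/

namespace Pool.Agent.helper19.AR

/-- the classes of the labelling `f` are small and almost cyclic -/
def EXa_Q {α β : Type} [DecidableEq α] (V : Finset α) (C : Finset β) (p q : β → α)
    (s : ℕ) (f : α → α) : Prop :=
  (∀ v ∈ V, f v ∈ V) ∧ ∀ x ∈ V.image f, (V.filter fun v => f v = x).card ≤ s ∧
    (V.filter fun v => f v = x).card ≤ (C.filter fun a => f (p a) = x ∧ f (q a) = x).card + 1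

theorem EXa_id {α β : Type} [DecidableEq α] (V : Finset α) (C : Finset β) (p q : β → α)
    (s : ℕ) (hs : 1 ≤ s) : EXa_Q V C p q s id := by
  refine ⟨fun v hv => hv, fun x hx => ?_⟩
  have h1 : (V.filter fun v => id v = x).card ≤ 1 := by
    rw [Finset.card_le_one]
    intro a ha b hb
    rw [Finset.mem_filter] at ha hb
    exact ha.2.trans hb.2.symm
  exact ⟨h1.trans hs, h1.trans (Nat.le_add_left _ _)⟩

/-- the number of cross colours inside a union of classes -/
theorem EXa_cross {α β : Type} [DecidableEq α] (V : Finset α) (C : Finset β) (p q : β → α)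
    (s : ℕ) (hp : ∀ a ∈ C, p a ∈ V ∧ q a ∈ V ∧ p a ≠ q a)
    (h : ∀ A ⊆ V, A.Nonempty → A.card ≤ 3 * s →
      (C.filter fun a => p a ∈ A ∧ q a ∈ A).card < A.card) (f : α → α)
    (hf : ∀ x ∈ V.image f,
      (V.filter fun v => f v = x).card ≤ (C.filter fun a => f (p a) = x ∧ f (q a) = x).card + 1)
    (X : Finset α) (hX : X ⊆ V.image f) (hne : X.Nonempty)
    (hc : ∑ x ∈ X, (V.filter fun v => f v = x).card ≤ 3 * s) :
    (C.filter fun a => (f (p a) ∈ X ∧ f (q a) ∈ X) ∧ f (p a) ≠ f (q a)).card < X.card := by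
  classical
  set A := V.filter (fun v => f v ∈ X) with hA
  have hAc : A.card = ∑ x ∈ X, (V.filter fun v => f v = x).card := by
    rw [Finset.card_eq_sum_card_fiberwise (f := f) (t := X) (by
      intro v hv
      rw [hA] at hv
      exact (Finset.mem_filter.1 (Finset.mem_coe.1 hv)).2)]
    refine Finset.sum_congr rfl (fun x hx => ?_)
    congr 1
    ext v
    rw [hA]
    simp only [Finset.mem_filter]
    constructor
    · rintro ⟨⟨h1, _⟩, h2⟩
      exact ⟨h1, h2⟩
    · rintro ⟨h1, h2⟩
      exact ⟨⟨h1, by rw [h2]; exact hx⟩, h2⟩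
  have hAn : A.Nonempty := by
    obtain ⟨x, hx⟩ := hne
    obtain ⟨v, hv, rfl⟩ := Finset.mem_image.1 (hX hx)
    exact ⟨v, by rw [hA]; exact Finset.mem_filter.2 ⟨hv, hx⟩⟩
  have h1 := h A (Finset.filter_subset _ _) hAn (by rw [hAc]; exact hc)
  have h2 : (C.filter fun a => p a ∈ A ∧ q a ∈ A) = (C.filter fun a => f (p a) ∈ X ∧ f (q a) ∈ X) := by
    apply Finset.filter_congr
    intro a ha
    obtain ⟨h3, h4, _⟩ := hp a ha
    rw [hA, Finset.mem_filter, Finset.mem_filter]
    exact ⟨fun h => ⟨h.1.2, h.2.2⟩, fun h => ⟨⟨h3, h.1⟩, ⟨h4, h.2⟩⟩⟩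
  rw [h2, hAc] at h1
  have h3 : (C.filter fun a => f (p a) ∈ X ∧ f (q a) ∈ X).card =
      ((C.filter fun a => f (p a) ∈ X ∧ f (q a) ∈ X).filter (fun a => f (p a) = f (q a))).card +
      ((C.filter fun a => f (p a) ∈ X ∧ f (q a) ∈ X).filter (fun a => ¬ f (p a) = f (q a))).card :=
    (Finset.card_filter_add_card_filter_not (fun a => f (p a) = f (q a))).symm
  have h4 : ((C.filter fun a => f (p a) ∈ X ∧ f (q a) ∈ X).filter (fun a => f (p a) = f (q a))).card
      = ∑ x ∈ X, (C.filter fun a => f (p a) = x ∧ f (q a) = x).card := by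
    rw [Finset.card_eq_sum_card_fiberwise (f := fun a => f (p a)) (t := X) (by
      intro a ha
      exact (Finset.mem_filter.1 (Finset.mem_filter.1 (Finset.mem_coe.1 ha)).1).2.1)]
    refine Finset.sum_congr rfl (fun x hx => ?_)
    congr 1
    ext a
    simp only [Finset.mem_filter]
    constructor
    · rintro ⟨⟨⟨h5, _⟩, h6⟩, h7⟩
      exact ⟨h5, h7, h6 ▸ h7⟩
    · rintro ⟨h5, h6, h7⟩
      exact ⟨⟨⟨h5, by rw [h6]; exact hx, by rw [h7]; exact hx⟩, by rw [h6, h7]⟩, h6⟩
  have h5 : ((C.filter fun a => f (p a) ∈ X ∧ f (q a) ∈ X).filter (fun a => ¬ f (p a) = f (q a)))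
      = (C.filter fun a => (f (p a) ∈ X ∧ f (q a) ∈ X) ∧ f (p a) ≠ f (q a)) := by
    rw [Finset.filter_filter]
  rw [h3, h4, h5] at h1
  have h6 : ∑ x ∈ X, (V.filter fun v => f v = x).card ≤
      ∑ x ∈ X, ((C.filter fun a => f (p a) = x ∧ f (q a) = x).card + 1) :=
    Finset.sum_le_sum (fun x hx => hf x (hX hx))
  rw [Finset.sum_add_distrib, Finset.sum_const, smul_eq_mul, mul_one] at h6
  omega

/-- merging two classes joined by a colour -/
theorem EXa_merge {α β : Type} [DecidableEq α] (V : Finset α) (C : Finset β) (p q : β → α)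
    (s : ℕ) (hp : ∀ a ∈ C, p a ∈ V ∧ q a ∈ V ∧ p a ≠ q a) (f : α → α) (hf : EXa_Q V C p q s f)
    (a : β) (ha : a ∈ C) (hne : f (p a) ≠ f (q a))
    (hle : (V.filter fun v => f v = f (p a)).card + (V.filter fun v => f v = f (q a)).card ≤ s) :
    ∃ g, EXa_Q V C p q s g ∧ (V.image g).card < (V.image f).card := by
  classical
  obtain ⟨hp1, hp2, _⟩ := hp a ha
  set P := f (p a) with hP
  set R := f (q a) with hR
  have hPV : P ∈ V := hf.1 _ hp1
  have hRi : R ∈ V.image f := Finset.mem_image_of_mem _ hp2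
  have hPi : P ∈ V.image f := Finset.mem_image_of_mem _ hp1
  set g : α → α := fun v => if f v = R then P else f v with hg
  have g1 : ∀ v, f v = R → g v = P := fun v h => by rw [hg]; exact if_pos h
  have g2 : ∀ v, f v ≠ R → g v = f v := fun v h => by rw [hg]; exact if_neg h
  have gR : ∀ v, g v ≠ R := by
    intro v h
    by_cases h1 : f v = R
    · rw [g1 v h1] at h; exact hne h
    · rw [g2 v h1] at h; exact h1 h
  have gx : ∀ v x, x ≠ P → x ≠ R → (g v = x ↔ f v = x) := by
    intro v x hx1 hx2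
    by_cases h1 : f v = R
    · rw [g1 v h1, h1]
      exact ⟨fun h => absurd h.symm hx1, fun h => absurd h.symm hx2⟩
    · rw [g2 v h1]
  have gP : ∀ v, g v = P ↔ (f v = P ∨ f v = R) := by
    intro v
    by_cases h1 : f v = R
    · rw [g1 v h1]; simp [h1]
    · rw [g2 v h1]; simp [h1]
  have himg : V.image g ⊆ (V.image f).erase R := by
    intro x hx
    obtain ⟨v, hv, rfl⟩ := Finset.mem_image.1 hx
    rw [Finset.mem_erase]
    refine ⟨gR v, ?_⟩
    by_cases h1 : f v = R
    · rw [g1 v h1]; exact hPi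
    · rw [g2 v h1]; exact Finset.mem_image_of_mem _ hv
  refine ⟨g, ⟨?_, ?_⟩, lt_of_le_of_lt (Finset.card_le_card himg)
    (Finset.card_erase_lt_of_mem hRi)⟩
  · intro v hv
    by_cases h1 : f v = R
    · rw [g1 v h1]; exact hPV
    · rw [g2 v h1]; exact hf.1 v hv
  · intro x hx
    have hx1 := Finset.mem_erase.1 (himg hx)
    by_cases hxP : x = P
    · subst hxP
      have e1 : (V.filter fun v => g v = P) = (V.filter fun v => f v = P) ∪ (V.filter fun v => f v = R) := by
        rw [← Finset.filter_or]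
        exact Finset.filter_congr (fun v _ => gP v)
      have d1 : Disjoint (V.filter fun v => f v = P) (V.filter fun v => f v = R) := by
        rw [Finset.disjoint_left]
        intro v hv hv'
        rw [Finset.mem_filter] at hv hv'
        exact hne (hv.2.symm.trans hv'.2)
      have c1 := Finset.card_union_of_disjoint d1
      rw [← e1] at c1
      refine ⟨by rw [c1]; exact hle, ?_⟩
      have hs1 : (C.filter fun b => f (p b) = P ∧ f (q b) = P) ∪
          ((C.filter fun b => f (p b) = R ∧ f (q b) = R) ∪ {a}) ⊆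
          (C.filter fun b => g (p b) = P ∧ g (q b) = P) := by
        intro b hb
        rw [Finset.mem_filter, gP, gP]
        rcases Finset.mem_union.1 hb with hb | hb
        · rw [Finset.mem_filter] at hb
          exact ⟨hb.1, Or.inl hb.2.1, Or.inl hb.2.2⟩
        · rcases Finset.mem_union.1 hb with hb | hb
          · rw [Finset.mem_filter] at hb
            exact ⟨hb.1, Or.inr hb.2.1, Or.inr hb.2.2⟩
          · rw [Finset.mem_singleton] at hb
            subst hb
            exact ⟨ha, Or.inl hP.symm, Or.inr hR.symm⟩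
      have d2 : Disjoint (C.filter fun b => f (p b) = R ∧ f (q b) = R) {a} := by
        rw [Finset.disjoint_singleton_right, Finset.mem_filter]
        rintro ⟨_, h1, _⟩
        exact hne (hP.trans h1)
      have d3 : Disjoint (C.filter fun b => f (p b) = P ∧ f (q b) = P)
          ((C.filter fun b => f (p b) = R ∧ f (q b) = R) ∪ {a}) := by
        rw [Finset.disjoint_left]
        intro b hb hb'
        rw [Finset.mem_filter] at hb
        rcases Finset.mem_union.1 hb' with hb' | hb'
        · rw [Finset.mem_filter] at hb'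
          exact hne (hb.2.1.symm.trans hb'.2.1)
        · rw [Finset.mem_singleton] at hb'
          subst hb'
          exact hne (hb.2.2.symm.trans hR.symm)
      have c2 := Finset.card_le_card hs1
      rw [Finset.card_union_of_disjoint d3, Finset.card_union_of_disjoint d2,
        Finset.card_singleton] at c2
      have c3 := (hf.2 P hPi).2
      have c4 := (hf.2 R hRi).2
      rw [c1]
      omega
    · have e1 : (V.filter fun v => g v = x) = (V.filter fun v => f v = x) :=
        Finset.filter_congr (fun v _ => gx v x hxP hx1.1)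
      have e2 : (C.filter fun b => g (p b) = x ∧ g (q b) = x) =
          (C.filter fun b => f (p b) = x ∧ f (q b) = x) :=
        Finset.filter_congr (fun b _ => and_congr (gx _ x hxP hx1.1) (gx _ x hxP hx1.1))
      rw [e1, e2]
      exact hf.2 x hx1.2

/-- module EXa -/
theorem EXa {α β : Type} [DecidableEq α] (V : Finset α) (C : Finset β) (p q : β → α)
    (s : ℕ) (hs : 1 ≤ s) (hp : ∀ a ∈ C, p a ∈ V ∧ q a ∈ V ∧ p a ≠ q a)
    (h : ∀ A ⊆ V, A.Nonempty → A.card ≤ 3 * s →
      (C.filter fun a => p a ∈ A ∧ q a ∈ A).card < A.card) :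
    ∃ f : α → α, (∀ v ∈ V, f v ∈ V) ∧
      (∀ x ∈ V.image f, (V.filter fun v => f v = x).card ≤ s ∧
        (C.filter fun a => f (p a) = x ∧ f (q a) = x).card + 1 = (V.filter fun v => f v = x).card) ∧
      (∀ a ∈ C, ∀ b ∈ C, f (p a) ≠ f (q a) → s(f (p a), f (q a)) = s(f (p b), f (q b)) → a = b) ∧
      (∀ a ∈ C, f (p a) ≠ f (q a) →
        s < (V.filter fun v => f v = f (p a)).card + (V.filter fun v => f v = f (q a)).card) ∧
      (∀ x x' y y' : α, 2 * (V.filter fun v => f v = x).card ≤ s →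
        2 * (V.filter fun v => f v = x').card ≤ s → x ≠ x' → y ≠ y' → x ≠ y → x ≠ y' → x' ≠ y →
        x' ≠ y' → ¬ ((∃ a ∈ C, s(f (p a), f (q a)) = s(x, y)) ∧
          (∃ a ∈ C, s(f (p a), f (q a)) = s(x, y')) ∧ (∃ a ∈ C, s(f (p a), f (q a)) = s(x', y)) ∧
          (∃ a ∈ C, s(f (p a), f (q a)) = s(x', y')))) := by
  classical
  have hex : ∃ n, ∃ f, EXa_Q V C p q s f ∧ (V.image f).card = n := ⟨_, id, EXa_id V C p q s hs, rfl⟩
  obtain ⟨f, hf, hfn⟩ := Nat.find_spec hex
  have hmin : ∀ g, EXa_Q V C p q s g → (V.image f).card ≤ (V.image g).card := by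
    intro g hg
    rw [hfn]
    exact Nat.find_min' hex ⟨g, hg, rfl⟩
  have hcross := EXa_cross V C p q s hp h f (fun x hx => (hf.2 x hx).2)
  have hpi : ∀ a ∈ C, f (p a) ∈ V.image f ∧ f (q a) ∈ V.image f := fun a ha =>
    ⟨Finset.mem_image_of_mem _ (hp a ha).1, Finset.mem_image_of_mem _ (hp a ha).2.1⟩
  refine ⟨f, hf.1, ?_, ?_, ?_, ?_⟩
  · intro x hx
    refine ⟨(hf.2 x hx).1, ?_⟩
    have h1 := h (V.filter fun v => f v = x) (Finset.filter_subset _ _) (by
      obtain ⟨v, hv, rfl⟩ := Finset.mem_image.1 hx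
      exact ⟨v, Finset.mem_filter.2 ⟨hv, rfl⟩⟩) (by
      have := (hf.2 x hx).1
      omega)
    have h2 : (C.filter fun a => p a ∈ (V.filter fun v => f v = x) ∧
        q a ∈ (V.filter fun v => f v = x)) = (C.filter fun a => f (p a) = x ∧ f (q a) = x) := by
      apply Finset.filter_congr
      intro a ha
      obtain ⟨h3, h4, _⟩ := hp a ha
      rw [Finset.mem_filter, Finset.mem_filter]
      exact ⟨fun h => ⟨h.1.2, h.2.2⟩, fun h => ⟨⟨h3, h.1⟩, ⟨h4, h.2⟩⟩⟩
    rw [h2] at h1
    have h3 := (hf.2 x hx).2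
    omega
  · intro a ha b hb hne he
    by_contra hab
    have h1 := hcross {f (p a), f (q a)} (by
      intro x hx
      rw [Finset.mem_insert, Finset.mem_singleton] at hx
      rcases hx with rfl | rfl
      · exact (hpi a ha).1
      · exact (hpi a ha).2) ⟨_, Finset.mem_insert_self _ _⟩ (by
      rw [Finset.sum_pair hne]
      have h1 := (hf.2 _ (hpi a ha).1).1
      have h2 := (hf.2 _ (hpi a ha).2).1
      omega)
    rw [Finset.card_pair hne] at h1
    have h2 : ({a, b} : Finset β) ⊆ (C.filter fun c => (f (p c) ∈ ({f (p a), f (q a)} : Finset α) ∧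
        f (q c) ∈ ({f (p a), f (q a)} : Finset α)) ∧ f (p c) ≠ f (q c)) := by
      intro c hc
      rw [Finset.mem_insert, Finset.mem_singleton] at hc
      rw [Finset.mem_filter]
      rcases hc with rfl | rfl
      · refine ⟨ha, ⟨?_, ?_⟩, hne⟩ <;> simp
      · rw [Sym2.eq_iff] at he
        refine ⟨hb, ?_, ?_⟩
        · rcases he with ⟨h3, h4⟩ | ⟨h3, h4⟩
          · rw [← h3, ← h4]; simp
          · rw [← h3, ← h4]; simp
        · rcases he with ⟨h3, h4⟩ | ⟨h3, h4⟩
          · rw [← h3, ← h4]; exact hne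
          · rw [← h3, ← h4]; exact hne.symm
    have h3 := Finset.card_le_card h2
    rw [Finset.card_pair hab] at h3
    omega
  · intro a ha hne
    by_contra hc
    push Not at hc
    obtain ⟨g, hg1, hg2⟩ := EXa_merge V C p q s hp f hf a ha hne hc
    have := hmin g hg1
    omega
  · rintro x x' y y' hx hx' n1 n2 n3 n4 n5 n6 ⟨⟨a, ha, ea⟩, ⟨b, hb, eb⟩, ⟨c, hc, ec⟩, ⟨d, hd, ed⟩⟩
    have hmem : ∀ e ∈ C, ∀ u w, s(f (p e), f (q e)) = s(u, w) → u ∈ V.image f ∧ w ∈ V.image f := by
      intro e he u w hu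
      rw [Sym2.eq_iff] at hu
      rcases hu with ⟨rfl, rfl⟩ | ⟨rfl, rfl⟩
      · exact hpi e he
      · exact (hpi e he).symm
    have mx := (hmem a ha x y ea).1
    have my := (hmem a ha x y ea).2
    have mx' := (hmem c hc x' y ec).1
    have my' := (hmem d hd x' y' ed).2
    have hX : ({x, x', y, y'} : Finset α).card = 4 := by
      rw [Finset.card_insert_of_notMem, Finset.card_insert_of_notMem, Finset.card_pair n2]
      · simp [n5, n6]
      · simp [n1, n3, n4]
    have h1 := hcross {x, x', y, y'} (by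
      intro z hz
      simp only [Finset.mem_insert, Finset.mem_singleton] at hz
      rcases hz with rfl | rfl | rfl | rfl
      · exact mx
      · exact mx'
      · exact my
      · exact my') ⟨_, Finset.mem_insert_self _ _⟩ (by
      rw [Finset.sum_insert (by simp [n1, n3, n4]), Finset.sum_insert (by simp [n5, n6]),
        Finset.sum_pair n2]
      have h2 := (hf.2 _ my).1
      have h3 := (hf.2 _ my').1
      omega)
    rw [hX] at h1
    have key : ∀ e ∈ C, ∀ u ∈ ({x, x'} : Finset α), ∀ w ∈ ({y, y'} : Finset α),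
        s(f (p e), f (q e)) = s(u, w) → e ∈ (C.filter fun c =>
          (f (p c) ∈ ({x, x', y, y'} : Finset α) ∧ f (q c) ∈ ({x, x', y, y'} : Finset α)) ∧
            f (p c) ≠ f (q c)) := by
      intro e he u hu w hw hs'
      have huw : u ≠ w := by
        simp only [Finset.mem_insert, Finset.mem_singleton] at hu hw
        rcases hu with rfl | rfl <;> rcases hw with rfl | rfl <;> assumption
      have hu' : u ∈ ({x, x', y, y'} : Finset α) := by
        simp only [Finset.mem_insert, Finset.mem_singleton] at hu ⊢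
        tauto
      have hw' : w ∈ ({x, x', y, y'} : Finset α) := by
        simp only [Finset.mem_insert, Finset.mem_singleton] at hw ⊢
        tauto
      rw [Finset.mem_filter]
      rw [Sym2.eq_iff] at hs'
      rcases hs' with ⟨h5, h6⟩ | ⟨h5, h6⟩
      · rw [h5, h6]; exact ⟨he, ⟨hu', hw'⟩, huw⟩
      · rw [h5, h6]; exact ⟨he, ⟨hw', hu'⟩, huw.symm⟩
    have hne : ∀ e e' : β, ∀ u w u' w' : α, s(f (p e), f (q e)) = s(u, w) →
        s(f (p e'), f (q e')) = s(u', w') → s(u, w) ≠ s(u', w') → e ≠ e' := by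
      rintro e e' u w u' w' h1 h2 h3 rfl
      exact h3 (h1.symm.trans h2)
    have hab : a ≠ b := hne a b _ _ _ _ ea eb (by
      rw [Ne, Sym2.eq_iff]; rintro (⟨h1, h2⟩ | ⟨h1, h2⟩); exacts [n2 h2, n4 h1])
    have hac : a ≠ c := hne a c _ _ _ _ ea ec (by
      rw [Ne, Sym2.eq_iff]; rintro (⟨h1, h2⟩ | ⟨h1, h2⟩); exacts [n1 h1, n3 h1])
    have had : a ≠ d := hne a d _ _ _ _ ea ed (by
      rw [Ne, Sym2.eq_iff]; rintro (⟨h1, h2⟩ | ⟨h1, h2⟩); exacts [n1 h1, n4 h1])
    have hbc : b ≠ c := hne b c _ _ _ _ eb ec (by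
      rw [Ne, Sym2.eq_iff]; rintro (⟨h1, h2⟩ | ⟨h1, h2⟩); exacts [n1 h1, n3 h1])
    have hbd : b ≠ d := hne b d _ _ _ _ eb ed (by
      rw [Ne, Sym2.eq_iff]; rintro (⟨h1, h2⟩ | ⟨h1, h2⟩); exacts [n1 h1, n4 h1])
    have hcd : c ≠ d := hne c d _ _ _ _ ec ed (by
      rw [Ne, Sym2.eq_iff]; rintro (⟨h1, h2⟩ | ⟨h1, h2⟩); exacts [n2 h2, n6 h1])
    have h2 : ({a, b, c, d} : Finset β) ⊆ (C.filter fun c =>
          (f (p c) ∈ ({x, x', y, y'} : Finset α) ∧ f (q c) ∈ ({x, x', y, y'} : Finset α)) ∧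
            f (p c) ≠ f (q c)) := by
      intro e he
      simp only [Finset.mem_insert, Finset.mem_singleton] at he
      rcases he with rfl | rfl | rfl | rfl
      · exact key _ ha x (by simp) y (by simp) ea
      · exact key _ hb x (by simp) y' (by simp) eb
      · exact key _ hc x' (by simp) y (by simp) ec
      · exact key _ hd x' (by simp) y' (by simp) ed
    have h3 := Finset.card_le_card h2
    have h4 : ({a, b, c, d} : Finset β).card = 4 := by
      rw [Finset.card_insert_of_notMem, Finset.card_insert_of_notMem, Finset.card_pair hcd]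
      · simp [hbc, hbd]
      · simp [hab, hac, had]
    omega

end Pool.Agent.helper19.AR
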